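import Pool.Agent.SSF.StmtsB

set_option autoImplicit false

open Set Topology

namespace Pool.Agent.SSF.H40

open Pool.Agent.LSG Pool.Agent.LPR Pool.Agent.SSF Pool.Agent.CMG

/-- the convergent sequence is totally disconnected -/
theorem tdOne [TopologicalSpace.MetrizableSpace (OnePoint ℕ)] :
    TotallyDisconnectedSpace (OnePoint ℕ) := by
  let hm : MetricSpace (OnePoint ℕ) := TopologicalSpace.metrizableSpaceMetric (OnePoint ℕ)
  have hc : Countable (OnePoint ℕ) := inferInstanceAs (Countable (Option ℕ))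
  exact ⟨(Set.to_countable (Set.univ : Set (OnePoint ℕ))).isTotallyDisconnected⟩

/-- **CPX**: Cantor sets are S-stable. -/
theorem cpx (hB : BroStmt) (hC : CpeStmt) (hR : BriStmt) : CpxStmt := by
  intro K _ _ _ _ _ hK
  have hO : TotallyDisconnectedSpace (OnePoint ℕ) := tdOne
  have hP : ∀ p : K × OnePoint ℕ, ¬ IsOpen ({p} : Set (K × OnePoint ℕ)) := by
    intro p hp
    apply hK p.1
    have h2 : (fun y : K => (y, p.2)) ⁻¹' {p} = {p.1} := by
      ext y
      constructor
      · intro h
        have h3 : (y, p.2) = p := h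
        exact (congrArg Prod.fst h3 : y = p.1)
      · intro h
        have h3 : y = p.1 := h
        rw [h3]
        rfl
    rw [← h2]
    exact hp.preimage (by fun_prop)
  obtain ⟨e1⟩ := hB K hK
  obtain ⟨e2⟩ := hB (K × OnePoint ℕ) hP
  exact (hR.1 (K × OnePoint ℕ) K).2 (hC.1 (K × OnePoint ℕ) K ⟨e2.trans e1.symm⟩)

end Pool.Agent.SSF.H40
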