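import Pool.Agent.SSF.Stmts

set_option autoImplicit false

open Set Topology
open scoped BigOperators

namespace Pool.Agent.SSF.H40

open Pool.Agent.LSG Pool.Agent.LPR Pool.Agent.SSF

theorem cut_one (A B : ℝ) (hA : 1 ≤ A) (hB : 1 ≤ B) : max 0 (min 1 (min A B)) = 1 := by
  rw [min_eq_left (le_min hA hB)]
  exact max_eq_right zero_le_one

theorem cut_pos (A B : ℝ) (h : max 0 (min 1 (min A B)) ≠ 0) : 0 < A ∧ 0 < B := by
  by_contra hcon
  apply h
  apply max_eq_left
  refine (min_le_right _ _).trans ?_
  by_contra h2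
  push Not at h2
  exact hcon ⟨lt_of_lt_of_le h2 (min_le_left _ _), lt_of_lt_of_le h2 (min_le_right _ _)⟩

/-- **HAM**: partition in the scale, and two cutoffs. -/
theorem ham (hat : HatStmt) : HamStmt := by
  obtain ⟨h0, hb, hs, hc⟩ := hat
  have hp : ∀ m j : ℕ, ((1 / 2 : ℝ) ^ (m + j)) * 2 ^ m = (1 / 2 : ℝ) ^ j := by
    intro m j
    rw [pow_add, mul_right_comm, ← mul_pow]
    norm_num
  refine ⟨fun m => ⟨fun r => (h0 m r) ^ 2, by fun_prop⟩,
    fun m => ⟨fun r => max 0 (min 1 (min (r * 2 ^ (m + 2) - 1) ((4 - r * 2 ^ m) / 2))), by fun_prop⟩,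
    fun m => ⟨fun r => max 0 (min 1 (min (r * 2 ^ (m + 4) - 1) ((16 - r * 2 ^ m) / 8))),
      by fun_prop⟩, ?_, ?_, ?_, ?_, ?_, ?_, ?_, ?_⟩
  · intro m r
    exact sq_nonneg _
  · intro m r
    exact ⟨le_max_left _ _, max_le zero_le_one (min_le_left _ _)⟩
  · intro m r
    exact ⟨le_max_left _ _, max_le zero_le_one (min_le_left _ _)⟩
  · intro m r h
    have h1 : h0 m r ≠ 0 := fun h2 => h (by
      show (h0 m r) ^ 2 = 0
      rw [h2]
      norm_num)
    obtain ⟨h2, h3⟩ := hs m r h1
    have h4 : (0 : ℝ) < 2 ^ m := by positivity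
    have h5 := hp m 1
    have h6 := hp m 0
    rw [add_zero, pow_zero] at h6
    apply cut_one
    · rw [pow_add]
      nlinarith
    · nlinarith
  · intro m r h
    obtain ⟨h1, h2⟩ := cut_pos _ _ h
    have h4 : (0 : ℝ) < 2 ^ m := by positivity
    have h5 := hp m 2
    have h6 := hp m 0
    rw [add_zero, pow_zero] at h6
    rw [pow_add] at h1
    constructor
    · by_contra hcon
      push Not at hcon
      have := mul_le_mul_of_nonneg_right hcon h4.le
      rw [h5] at this
      linarith
    · by_contra hcon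
      push Not at hcon
      have := mul_le_mul_of_nonneg_right hcon h4.le
      rw [mul_assoc, h6] at this
      linarith
  · intro m r h1 h2
    have h4 : (0 : ℝ) < 2 ^ m := by positivity
    have h5 := hp m 3
    have h6 := hp m 0
    rw [add_zero, pow_zero] at h6
    have h7 := mul_le_mul_of_nonneg_right h1 h4.le
    have h8 := mul_le_mul_of_nonneg_right h2 h4.le
    rw [h5] at h7
    rw [mul_assoc, h6] at h8
    apply cut_one
    · rw [pow_add]
      linarith
    · linarith
  · intro m r h
    obtain ⟨h1, h2⟩ := cut_pos _ _ h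
    have h4 : (0 : ℝ) < 2 ^ m := by positivity
    have h5 := hp m 4
    have h6 := hp m 0
    rw [add_zero, pow_zero] at h6
    rw [pow_add] at h1
    constructor
    · by_contra hcon
      push Not at hcon
      have := mul_le_mul_of_nonneg_right hcon h4.le
      rw [h5] at this
      linarith
    · by_contra hcon
      push Not at hcon
      have := mul_le_mul_of_nonneg_right hcon h4.le
      rw [mul_assoc, h6] at this
      linarith
  · intro r hr0 hr1
    obtain ⟨j, h1, h2⟩ := hc r hr0 hr1
    refine ⟨j, ?_, h2⟩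
    intro m h
    apply h1 m
    intro h3
    apply h
    show (h0 m r) ^ 2 = 0
    rw [h3]
    norm_num

end Pool.Agent.SSF.H40
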