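import Pool.Agent.SSF.StmtsC

set_option autoImplicit false

open Set Topology

namespace Pool.Agent.SSF.H40F

open Pool.Agent.LSG Pool.Agent.LPR Pool.Agent.SSF

theorem mkCLM {Y V : Type} [AddCommGroup V] [Module ℝ V] [TopologicalSpace V]
    (W : Submodule ℝ (Y → ℝ)) (T : V →ₗ[ℝ] (Y → ℝ)) (hT : ∀ v, T v ∈ W)
    (hc : ∀ y, Continuous fun v => T v y) : ∃ S : V →L[ℝ] ↥W, ∀ v, (S v).1 = T v :=
  ⟨⟨T.codRestrict W hT, Continuous.subtype_mk (continuous_pi hc) _⟩, fun _ => rfl⟩

theorem evc {Y : Type} (W : Submodule ℝ (Y → ℝ)) (y : Y) : Continuous fun f : ↥W => f.1 y :=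
  (continuous_apply y).comp continuous_subtype_val

open Classical in
/-- **HFO** -/
theorem hfo (dug : DugStmt) : HfoStmt := by
  intro X _ _ A B hA hB hAB O hO
  let C : Set X := {y | y ∈ A ∨ y ∉ O}
  have hC1 : IsClosed {y : X | y ∉ O} := hO.isClosed_compl
  have hC : IsClosed C := hA.union hC1
  obtain ⟨e, he⟩ := dug X C hC
  let TA : ↥(Fo (Subtype.val ⁻¹' O : Set ↥A)) →ₗ[ℝ] (↥C → ℝ) :=
    { toFun := fun F c => if h : c.1 ∈ A then F.1 ⟨c.1, h⟩ else 0
      map_add' := by
        intro F G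
        funext c
        show (if h : c.1 ∈ A then (F.1 + G.1) ⟨c.1, h⟩ else 0) = _
        by_cases h : c.1 ∈ A
        · simp only [dif_pos h, Pi.add_apply]
        · simp only [dif_neg h, Pi.add_apply, add_zero]
      map_smul' := by
        intro r F
        funext c
        show (if h : c.1 ∈ A then (r • F.1) ⟨c.1, h⟩ else 0) = _
        by_cases h : c.1 ∈ A
        · simp only [dif_pos h, Pi.smul_apply, RingHom.id_apply]
        · simp only [dif_neg h, Pi.smul_apply, RingHom.id_apply, smul_zero] }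
  have hTA1 : ∀ F (c : ↥C) (h : c.1 ∈ A), TA F c = F.1 ⟨c.1, h⟩ :=
    fun F c h => dif_pos h
  have hTA2 : ∀ F (c : ↥C), c.1 ∉ O → TA F c = 0 := by
    intro F c hc
    by_cases h : c.1 ∈ A
    · rw [hTA1 F c h]
      exact F.2.2 ⟨c.1, h⟩ hc
    · exact dif_neg h
  have hTAc : ∀ F, TA F ∈ Cp ↥C := by
    intro F
    show Continuous (TA F)
    rw [← continuousOn_univ]
    have hu : (Set.univ : Set ↥C) = {c | c.1 ∈ A} ∪ {c | c.1 ∉ O} := by
      ext c
      exact ⟨fun _ => c.2, fun _ => trivial⟩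
    rw [hu]
    refine ContinuousOn.union_of_isClosed ?_ ?_ (hA.preimage continuous_subtype_val)
      (hC1.preimage continuous_subtype_val)
    · rw [continuousOn_iff_continuous_domRestrict]
      have h1 : Continuous fun c : ↥{c : ↥C | c.1 ∈ A} => F.1 (⟨c.1.1, c.2⟩ : ↥A) := by
        refine F.2.1.comp ?_
        exact Continuous.subtype_mk (continuous_subtype_val.comp continuous_subtype_val) _
      exact h1.congr fun c => (hTA1 F c.1 c.2).symm
    · exact continuousOn_const.congr (fun c hc => hTA2 F c hc)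
  obtain ⟨SA, hSA⟩ := mkCLM (Cp ↥C) TA hTAc (by
    intro c
    by_cases h : c.1 ∈ A
    · have h1 : (fun F => TA F c) = fun F : ↥(Fo (Subtype.val ⁻¹' O : Set ↥A)) =>
          F.1 ⟨c.1, h⟩ := funext fun F => hTA1 F c h
      rw [h1]
      exact evc _ _
    · have h1 : (fun F => TA F c) = fun _ : ↥(Fo (Subtype.val ⁻¹' O : Set ↥A)) => (0 : ℝ) :=
        funext fun F => dif_neg h
      rw [h1]
      exact continuous_const)
  let E : ↥(Fo (Subtype.val ⁻¹' O : Set ↥A)) →L[ℝ] ↥(Cp X) := e.comp SA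
  have hE1 : ∀ F (x : X) (h : x ∈ A), (E F).1 x = F.1 ⟨x, h⟩ := by
    intro F x h
    have h1 := he (SA F) ⟨x, Or.inl h⟩
    have h2 : (SA F).1 ⟨x, Or.inl h⟩ = F.1 ⟨x, h⟩ := by
      rw [hSA]
      exact hTA1 F _ h
    exact h1.trans h2
  have hE2 : ∀ F (x : X), x ∉ O → (E F).1 x = 0 := by
    intro F x h
    have h1 := he (SA F) ⟨x, Or.inr h⟩
    have h2 : (SA F).1 ⟨x, Or.inr h⟩ = 0 := by
      rw [hSA]
      exact hTA2 F _ h
    exact h1.trans h2
  let TB : ↥(Fo (Subtype.val ⁻¹' (O \ A) : Set ↥B)) →ₗ[ℝ] (X → ℝ) :=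
    { toFun := fun F c => if h : c ∈ B then F.1 ⟨c, h⟩ else 0
      map_add' := by
        intro F G
        funext c
        show (if h : c ∈ B then (F.1 + G.1) ⟨c, h⟩ else 0) = _
        by_cases h : c ∈ B
        · simp only [dif_pos h, Pi.add_apply]
        · simp only [dif_neg h, Pi.add_apply, add_zero]
      map_smul' := by
        intro r F
        funext c
        show (if h : c ∈ B then (r • F.1) ⟨c, h⟩ else 0) = _
        by_cases h : c ∈ B
        · simp only [dif_pos h, Pi.smul_apply, RingHom.id_apply]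
        · simp only [dif_neg h, Pi.smul_apply, RingHom.id_apply, smul_zero] }
  have hTB1 : ∀ F (c : X) (h : c ∈ B), TB F c = F.1 ⟨c, h⟩ :=
    fun F c h => dif_pos h
  have hTB2 : ∀ F (c : X), (c ∈ A ∨ c ∉ O) → TB F c = 0 := by
    intro F c hc
    by_cases h : c ∈ B
    · rw [hTB1 F c h]
      rcases hc with hc | hc
      · exact F.2.2 ⟨c, h⟩ (fun h' => h'.2 hc)
      · exact F.2.2 ⟨c, h⟩ (fun h' => hc h'.1)
    · exact dif_neg h
  have hTBc : ∀ F, Continuous (TB F) := by
    intro F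
    rw [← continuousOn_univ]
    have hu : (Set.univ : Set X) = B ∪ A := by
      rw [Set.union_comm, hAB]
    rw [hu]
    refine ContinuousOn.union_of_isClosed ?_ ?_ hB hA
    · rw [continuousOn_iff_continuous_domRestrict]
      exact F.2.1.congr fun c => (hTB1 F c.1 c.2).symm
    · exact continuousOn_const.congr (fun c hc => hTB2 F c (Or.inl hc))
  have hTBe : ∀ c : X, Continuous fun F => TB F c := by
    intro c
    by_cases h : c ∈ B
    · have h1 : (fun F => TB F c) = fun F : ↥(Fo (Subtype.val ⁻¹' (O \ A) : Set ↥B)) =>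
          F.1 ⟨c, h⟩ := funext fun F => hTB1 F c h
      rw [h1]
      exact evc _ _
    · have h1 : (fun F => TB F c) = fun _ : ↥(Fo (Subtype.val ⁻¹' (O \ A) : Set ↥B)) => (0 : ℝ) :=
        funext fun F => dif_neg h
      rw [h1]
      exact continuous_const
  obtain ⟨RA, hRA⟩ := mkCLM (V := ↥(Fo O)) (Fo (Subtype.val ⁻¹' O : Set ↥A))
    { toFun := fun G q => G.1 q.1
      map_add' := fun _ _ => rfl
      map_smul' := fun _ _ => rfl }
    (by
      intro G
      exact ⟨G.2.1.comp continuous_subtype_val, fun x hx => G.2.2 x.1 hx⟩)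
    (fun q => evc _ _)
  have hRA' : ∀ G (x : X) (h : x ∈ A), (RA G).1 ⟨x, h⟩ = G.1 x := by
    intro G x h
    rw [hRA]
    rfl
  obtain ⟨RB, hRB⟩ := mkCLM (V := ↥(Fo O)) (Fo (Subtype.val ⁻¹' (O \ A) : Set ↥B))
    { toFun := fun G q => G.1 q.1 - (E (RA G)).1 q.1
      map_add' := by
        intro F G
        funext q
        rw [map_add, map_add]
        show (F.1 _ + G.1 _) - ((E (RA F)).1 _ + (E (RA G)).1 _) =
          (F.1 _ - (E (RA F)).1 _) + (G.1 _ - (E (RA G)).1 _)
        ring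
      map_smul' := by
        intro r F
        funext q
        rw [map_smul, map_smul]
        show r * F.1 _ - r * (E (RA F)).1 _ = r * (F.1 _ - (E (RA F)).1 _)
        ring }
    (by
      intro G
      refine ⟨?_, ?_⟩
      · exact (G.2.1.comp continuous_subtype_val).sub ((E (RA G)).2.comp continuous_subtype_val)
      · intro x hx
        show G.1 x.1 - (E (RA G)).1 x.1 = 0
        by_cases h : x.1 ∈ A
        · rw [hE1 _ _ h, hRA', sub_self]
        · have hx' : x.1 ∉ O := fun h' => hx ⟨h', h⟩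
          rw [hE2 _ _ hx', G.2.2 x.1 hx', sub_zero])
    (by
      intro q
      exact (evc _ _).sub ((evc _ _).comp (E.continuous.comp RA.continuous)))
  obtain ⟨P, hP⟩ := mkCLM (V := ↥(Fo (Subtype.val ⁻¹' O : Set ↥A)) ×
      ↥(Fo (Subtype.val ⁻¹' (O \ A) : Set ↥B))) (Fo O)
    { toFun := fun F c => (E F.1).1 c + TB F.2 c
      map_add' := by
        intro F G
        funext c
        show (E (F.1 + G.1)).1 c + TB (F.2 + G.2) c =
          ((E F.1).1 c + TB F.2 c) + ((E G.1).1 c + TB G.2 c)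
        rw [map_add, map_add]
        show ((E F.1).1 c + (E G.1).1 c) + (TB F.2 c + TB G.2 c) = _
        ring
      map_smul' := by
        intro r F
        funext c
        show (E (r • F.1)).1 c + TB (r • F.2) c = r * ((E F.1).1 c + TB F.2 c)
        rw [map_smul, map_smul]
        show r * (E F.1).1 c + r * TB F.2 c = _
        ring }
    (by
      intro F
      refine ⟨?_, ?_⟩
      · exact (E F.1).2.add (hTBc F.2)
      · intro x hx
        show (E F.1).1 x + TB F.2 x = 0
        rw [hE2 _ _ hx, hTB2 F.2 x (Or.inr hx), add_zero])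
    (by
      intro c
      exact ((evc _ _).comp (E.continuous.comp continuous_fst)).add
        ((hTBe c).comp continuous_snd))
  refine ⟨P, RA.prod RB, ?_⟩
  rintro ⟨F, G⟩
  have hPv : ∀ x, (P (F, G)).1 x = (E F).1 x + TB G x := by
    intro x
    rw [hP]
    rfl
  have h1 : RA (P (F, G)) = F := by
    apply Subtype.ext
    funext q
    obtain ⟨x, hx⟩ := q
    rw [hRA', hPv, hE1 _ _ hx, hTB2 G x (Or.inl hx), add_zero]
  have h2 : RB (P (F, G)) = G := by
    apply Subtype.ext
    funext q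
    obtain ⟨x, hx⟩ := q
    rw [hRB]
    show (P (F, G)).1 x - (E (RA (P (F, G)))).1 x = G.1 ⟨x, hx⟩
    rw [h1, hPv, hTB1 G x hx]
    ring
  show (RA (P (F, G)), RB (P (F, G))) = (F, G)
  rw [h1, h2]

end Pool.Agent.SSF.H40F
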